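import Pool.Agent.P.MP_e94e4b_nt.RP.TFLA
import Pool.Agent.P.MP_e94e4b_nt.RP.TFLB
import Pool.Agent.P.MP_e94e4b_nt.RP.TEXP
import Pool.Agent.P.MP_e94e4b_nt.RP.TRAN

/-! An upper bound sieve for triples. -/

set_option linter.unusedSectionVars false

namespace Pool.Agent.P.MP_e94e4b_nt.RP.U

open Polynomial Finset
open Pool.Agent.P.MP_8be758_nt Pool.Agent.P.MP_8be758_nt.C2 Pool.Agent.P.MP_8be758_nt.L2
open Pool.Agent.P.MP_e94e4b_nt.LG
open scoped Classical

variable {k : Type} [Field k] [Finite k]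

theorem R_crt (Rs : Finset k[X]) (n : ℕ) (U : Finset k[X])
    (hU : ∀ P ∈ U, IsPr P ∧ ∀ x ∈ Rs, ∀ y ∈ Rs, P ∣ x - y → x = y) :
    ∀ M r : k[X], M ≠ 0 → (∀ P ∈ U, IsCoprime M P) → M.natDegree + dg U ≤ n →
      (((Gs M r n).filter (fun f => ∀ P ∈ U, ∃ x ∈ Rs, P ∣ f + x)).card : ℝ) =
        qq k ^ n / qq k ^ M.natDegree * ∏ P ∈ U, pc Rs.card P := by
  induction U using Finset.induction_on with
  | empty =>
    intro M r h0 _ h
    rw [filter_true_of_mem (by simp), prod_empty, mul_one, card_Gs h0 r (by omega)]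
  | insert P U hP ih =>
    intro M r h0 hc h
    obtain ⟨p1, p2⟩ := hU P (mem_insert_self _ _)
    have c := hc P (mem_insert_self _ _)
    obtain ⟨u, v, e⟩ := id c
    have d := natDegree_mul h0 p1.ne_zero
    rw [dg_insert hP] at h
    have E : (Gs M r n).filter (fun f => ∀ Q ∈ insert P U, ∃ x ∈ Rs, Q ∣ f + x) =
        Rs.biUnion fun x => (Gs (M * P) (r * v * P - x * u * M) n).filter
          (fun f => ∀ Q ∈ U, ∃ x ∈ Rs, Q ∣ f + x) := by
      ext f
      simp only [mem_filter, mem_biUnion, mem_Gs, forall_mem_insert]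
      constructor
      · rintro ⟨⟨a, b, s, hs⟩, ⟨x, hx, t, ht⟩, w⟩
        exact ⟨x, hx, ⟨a, b, c.mul_dvd ⟨s + r * u + x * u, by linear_combination hs - r * e⟩
          ⟨t - r * v - x * v, by linear_combination ht + x * e⟩⟩, w⟩
      · rintro ⟨x, hx, ⟨a, b, s, hs⟩, w⟩
        exact ⟨⟨a, b, P * s - r * u - x * u, by linear_combination hs + r * e⟩,
          ⟨x, hx, M * s + r * v + x * v, by linear_combination hs - x * e⟩, w⟩
    rw [E, card_biUnion fun x hx y hy ne => disjoint_left.2 fun f h1 h2 => ne (p2 x hx y hy ?_),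
      Nat.cast_sum, sum_congr rfl fun x _ => ih (fun Q hQ => hU Q (mem_insert_of_mem hQ)) _ _
        (mul_ne_zero h0 p1.ne_zero) (fun Q hQ => (hc Q (mem_insert_of_mem hQ)).mul_left
          (p1.coprime (hU Q (mem_insert_of_mem hQ)).1 fun e => hP (e ▸ hQ))) (by omega),
      sum_const, nsmul_eq_mul, prod_insert hP, d, pow_add, pc]
    · ring
    · obtain ⟨s, hs⟩ := (mem_Gs.1 (mem_filter.1 h1).1).2.2
      obtain ⟨t, ht⟩ := (mem_Gs.1 (mem_filter.1 h2).1).2.2
      exact ⟨M * s - M * t + (x - y) * v, by linear_combination hs - ht - (x - y) * e⟩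

theorem R_ran (T : Finset k[X]) (Z : ℕ) (hT : T ⊆ Pr k Z) (hZ : 1 ≤ Z)
    (hp : ∀ P ∈ T, pc 3 P ≤ 1 / 2) : 1 ≤ 2 * VV (pc 3) T * GR (pc 3) T (11 * Z) := by
  have Z0 : (0 : ℝ) < Z := by exact_mod_cast hZ
  have hq := qq_pos (k := k)
  obtain ⟨w, hw⟩ : ∃ w : k[X] → ℝ, w = fun P => Real.exp (2 * ((P.natDegree : ℝ) / Z)) := ⟨_, rfl⟩
  have w0 : ∀ P, 0 < w P := fun P => by rw [hw]; exact Real.exp_pos _
  have p0 : ∀ P : k[X], 0 ≤ pc 3 P := fun P => by unfold pc; positivity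
  have q0 : ∀ P ∈ T, 0 < 1 - pc 3 P := fun P hP => by linarith [hp P hP]
  have h0 : ∀ P ∈ T, 0 ≤ hh (pc 3) P := fun P hP => div_nonneg (p0 P) (q0 P hP).le
  have V0 : 0 ≤ VV (pc 3) T := prod_nonneg fun P hP => (q0 P hP).le
  have h1 : (∑ S ∈ T.powerset.filter (fun S => ¬ dg S ≤ 11 * Z), ∏ P ∈ S, hh (pc 3) P) *
      Real.exp 22 ≤ ∏ P ∈ T, (1 + hh (pc 3) P * w P) := by
    rw [prod_one_add, sum_mul]
    refine (sum_le_sum fun S hS => ?_).trans (sum_le_sum_of_subset_of_nonneg (filter_subset _ _)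
      fun S hS _ => prod_nonneg fun P hP => mul_nonneg (h0 P (mem_powerset.1 hS hP)) (w0 P).le)
    obtain ⟨hS1, hS2⟩ := mem_filter.1 hS
    rw [prod_mul_distrib, hw, ← Real.exp_sum, ← mul_sum, ← sum_div, ← Nat.cast_sum]
    refine mul_le_mul_of_nonneg_left (Real.exp_le_exp.2 ?_)
      (prod_nonneg fun P hP => h0 P (mem_powerset.1 hS1 hP))
    have b1 : (11 : ℝ) ≤ dg S / Z := by
      rw [le_div_iff₀ Z0]; exact_mod_cast (not_le.1 hS2).le
    unfold dg at b1
    linarith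
  have h2 : (∏ P ∈ T, (1 + hh (pc 3) P * w P)) * VV (pc 3) T ≤ Real.exp 21 := by
    rw [VV, ← prod_mul_distrib]
    refine (prod_le_prod (g := fun P => Real.exp (21 / Z * (P.natDegree / qq k ^ P.natDegree)))
      (fun P hP => mul_nonneg (add_nonneg zero_le_one (mul_nonneg (h0 P hP) (w0 P).le))
        (q0 P hP).le) fun P hP => ?_).trans ?_
    · have b0 : (0 : ℝ) ≤ P.natDegree / Z := by positivity
      have b1 : (P.natDegree : ℝ) / Z ≤ 1 := by
        rw [div_le_one Z0]; exact_mod_cast (mem_Pr.1 (hT hP)).2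
      have b2 : w P ≤ 1 + 7 * (P.natDegree / Z) := by rw [hw]; exact ran_exp b0 b1
      have b3 : (1 + hh (pc 3) P * w P) * (1 - pc 3 P) = pc 3 P * (w P - 1) + 1 := by
        have := (q0 P hP).ne'
        rw [hh]; field_simp; ring
      rw [b3]
      refine le_trans ?_ (Real.add_one_le_exp _)
      have b4 : pc 3 P * (w P - 1) ≤ pc 3 P * (7 * (P.natDegree / Z)) :=
        mul_le_mul_of_nonneg_left (by linarith) (p0 P)
      have b5 : pc 3 P * (7 * (P.natDegree / Z)) =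
          21 / Z * (P.natDegree / qq k ^ P.natDegree) := by rw [pc]; ring
      linarith
    · rw [← Real.exp_sum, ← mul_sum]
      refine Real.exp_le_exp.2 ?_
      have b := (sum_le_sum_of_subset_of_nonneg hT fun P _ _ =>
        div_nonneg (Nat.cast_nonneg P.natDegree) (pow_pos hq P.natDegree).le).trans (ran_sum k Z)
      exact (mul_le_mul_of_nonneg_left b (by positivity)).trans_eq (by field_simp)
  have h3 : (∑ S ∈ T.powerset, ∏ P ∈ S, hh (pc 3) P) * VV (pc 3) T = 1 := by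
    rw [← prod_one_add, VV, ← prod_mul_distrib]
    refine prod_eq_one fun P hP => ?_
    have := (q0 P hP).ne'
    rw [hh]; field_simp; ring
  rw [← sum_filter_add_sum_filter_not _ (fun S => dg S ≤ 11 * Z), ← GR] at h3
  have h4 := (mul_le_mul_of_nonneg_right h1 V0).trans h2
  have h5 : 2 * Real.exp 21 ≤ Real.exp 22 := by
    rw [show (22 : ℝ) = 1 + 21 by norm_num, Real.exp_add]
    exact mul_le_mul_of_nonneg_right (by linarith [Real.add_one_le_exp 1]) (Real.exp_pos _).le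
  generalize ∑ S ∈ T.powerset.filter (fun S => ¬ dg S ≤ 11 * Z), ∏ P ∈ S, hh (pc 3) P = x at *
  have h6 : x * VV (pc 3) T ≤ 1 / 2 :=
    le_of_mul_le_mul_right (by linarith) (Real.exp_pos 22)
  linarith

theorem R_sieve (Rs T : Finset k[X]) (n Z : ℕ) (hT : T ⊆ Pr k Z) (hZ : 1 ≤ Z) (hn : 23 * Z ≤ n)
    (hp : ∀ P ∈ T, pc 3 P ≤ 1 / 2) (h3 : Rs.card = 3)
    (hs : ∀ P ∈ T, ∀ x ∈ Rs, ∀ y ∈ Rs, P ∣ x - y → x = y) :
    (((Mo k n).filter (fun f => ∀ P ∈ T, ¬ ∃ x ∈ Rs, P ∣ f + x)).card : ℝ) ≤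
      2 * qq k ^ n * VV (pc 3) T := by
  have hq := qq_pos (k := k)
  have p0 : ∀ P : k[X], 0 ≤ pc 3 P := fun P => by unfold pc; positivity
  obtain ⟨g1, lam, xi, l1, -, hw⟩ :=
    p_FLA k (pc 3) T (11 * Z) Z fun P h => ⟨p0 P, hp P h, (mem_Pr.1 (hT h)).2⟩
  have g0 : 0 < GR (pc 3) T (11 * Z) := by linarith
  have a1 : (((Mo k n).filter (fun f => ∀ P ∈ T, ¬ ∃ x ∈ Rs, P ∣ f + x)).card : ℝ) ≤
      ∑ f ∈ Mo k n, wt lam (T.filter fun P => ∃ x ∈ Rs, P ∣ f + x) := by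
    rw [← sum_boole]
    refine sum_le_sum fun f _ => ?_
    rw [(hw _).1]
    split_ifs with c
    · rw [filter_eq_empty_iff.2 c, show FA (pc 3) T (11 * Z) ∅ = GR (pc 3) T (11 * Z) by
        simp [FA, GR], div_self g0.ne', one_pow]
    · positivity
  have a2 : ∑ f ∈ Mo k n, wt lam (T.filter fun P => ∃ x ∈ Rs, P ∣ f + x) =
      qq k ^ n * EE (pc 3) T lam := by
    have : ∀ f : k[X], wt lam (T.filter fun P => ∃ x ∈ Rs, P ∣ f + x) =
        ∑ S ∈ T.powerset, if ∀ P ∈ S, ∃ x ∈ Rs, P ∣ f + x then lam S else 0 := fun f => by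
      rw [wt, ← sum_filter]
      refine sum_congr ?_ fun _ _ => rfl
      ext S
      simp only [mem_powerset, mem_filter, subset_iff]
      exact ⟨fun h => ⟨fun P hP => (h hP).1, fun P hP => (h hP).2⟩,
        fun h P hP => ⟨h.1 hP, h.2 P hP⟩⟩
    rw [sum_congr rfl fun f _ => this f, sum_comm, EE, mul_sum]
    refine sum_congr rfl fun S hS => ?_
    by_cases h0 : lam S = 0
    · simp [h0]
    have := R_crt Rs n S (fun P hP => ⟨isPr_Pr P (hT (mem_powerset.1 hS hP)),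
      hs P (mem_powerset.1 hS hP)⟩) 1 0 one_ne_zero (fun _ _ => isCoprime_one_left)
      (by have := (l1.1 S h0).2; rw [natDegree_one]; omega)
    rw [← sum_filter, sum_const, nsmul_eq_mul, Mo, this, h3, natDegree_one]
    push_cast
    ring
  have a3 : EE (pc 3) T lam = 1 / GR (pc 3) T (11 * Z) := by
    have := FLB.sq_sum (pc 3) (T := T) (fun P h => ⟨p0 P, hp P h⟩)
      (T.powerset.filter fun S => dg S ≤ 11 * Z) fun S hS => mem_powerset.1 (mem_filter.1 hS).1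
    rw [← GR] at this
    rw [p_EXP, sum_congr rfl fun A _ => by rw [(hw A).1, div_pow, ← mul_div_assoc], ← sum_div,
      show ∑ A ∈ T.powerset, PA (pc 3) T A * FA (pc 3) T (11 * Z) A ^ 2 = _ from this]
    field_simp
  rw [a2, a3] at a1
  refine a1.trans ?_
  rw [mul_comm 2, mul_assoc]
  exact mul_le_mul_of_nonneg_left ((div_le_iff₀ g0).2 (R_ran T Z hT hZ hp)) (by positivity)

end Pool.Agent.P.MP_e94e4b_nt.RP.U
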