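import Pool.Agent.P.MP_e94e4b_nt.RP.TMER3

/-! The mean value of the singular factor. -/

set_option linter.unusedSectionVars false

namespace Pool.Agent.P.MP_e94e4b_nt.RP.U

open Polynomial Finset
open Pool.Agent.P.MP_8be758_nt Pool.Agent.P.MP_8be758_nt.C2 Pool.Agent.P.MP_8be758_nt.L2
open Pool.Agent.P.MP_e94e4b_nt.LG
open scoped Classical

variable {k : Type} [Field k] [Finite k]

/-- the singular factor -/
noncomputable def Wc (c : ℕ) (S : Finset k[X]) : ℝ := ∏ P ∈ S, (1 + pc c P)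

/-- the binomial -/
noncomputable def bn (g : k[X]) (j : ℕ) : k[X] := g ^ j - C 1

theorem pc_nn (c : ℕ) (P : k[X]) : 0 ≤ pc c P := by
  have := qq_pos (k := k); unfold pc; positivity

theorem Wc_nn (c : ℕ) (S : Finset k[X]) : 0 ≤ Wc c S :=
  prod_nonneg fun P _ => by linarith [pc_nn c P]

theorem Wc_mono (c : ℕ) {S T : Finset k[X]} (h : S ⊆ T) : Wc c S ≤ Wc c T :=
  prod_le_prod_of_subset_of_one_le h (fun P _ => by linarith [pc_nn c P])
    fun P _ _ => by linarith [pc_nn c P]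

theorem Wc_union (c : ℕ) (S T : Finset k[X]) : Wc c (S ∪ T) ≤ Wc c S * Wc c T := by
  rw [← union_sdiff_self_eq_union, Wc, prod_union disjoint_sdiff]
  exact mul_le_mul_of_nonneg_left (Wc_mono c sdiff_subset) (Wc_nn c S)

theorem Wc_big (c y : ℕ) {S : Finset k[X]} (h : ∀ P ∈ S, y ≤ P.natDegree)
    (hc : (S.card : ℝ) ≤ qq k ^ y) : Wc c S ≤ Real.exp c := by
  have hq := qq_pos (k := k)
  refine (Real.prod_one_add_le_exp_sum S (pc_nn c)).trans (Real.exp_le_exp.2 ?_)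
  refine (sum_le_card_nsmul _ _ (c / qq k ^ y) fun P hP => div_le_div_of_nonneg_left
    (by positivity) (by positivity) (qq_pow_mono (h P hP))).trans ?_
  rw [nsmul_eq_mul, ← mul_div_assoc, div_le_iff₀ (by positivity), mul_comm]
  exact mul_le_mul_of_nonneg_left hc (by positivity)

theorem Wc_Pr (c y : ℕ) (hy : 1 ≤ y) : Wc c (Pr k y) ≤ Real.exp c * (y : ℝ) ^ c := by
  refine (Wc_mono c (T := Pd k 1 ∪ JJ k 1 y) fun P hP => ?_).trans ((Wc_union c _ _).trans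
    (mul_le_mul (Wc_big c 1 (fun P hP => (mem_Pd.1 hP).2.ge) (card_Pd_le 1))
      (by simpa [Wc] using p_MER3 k c 1 y le_rfl hy) (Wc_nn _ _) (Real.exp_pos _).le))
  obtain ⟨a, b⟩ := mem_Pr.1 hP
  have := a.pos
  rw [mem_union, mem_Pd, mem_JJ]
  exact (this.eq_or_lt).imp (fun e => ⟨a, e.symm⟩) fun e => ⟨a, e, b⟩

theorem Wc_pf (c y : ℕ) (hy : 1 ≤ y) {D : k[X]} (h0 : D ≠ 0) (hD : D.natDegree ≤ 2 ^ y) :
    Wc c (pf D) ≤ Real.exp c * (y : ℝ) ^ c * Real.exp c := by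
  refine (Wc_mono c (T := Pr k y ∪ (pf D).filter fun P => y ≤ P.natDegree) fun P hP => ?_).trans
    ((Wc_union c _ _).trans (mul_le_mul (Wc_Pr c y hy)
      (Wc_big c y (fun P hP => (mem_filter.1 hP).2) ?_) (Wc_nn _ _) (by positivity)))
  · rw [mem_union, mem_Pr, mem_filter]
    exact (le_total _ _).imp (fun e => ⟨isPr_of_mem_pf hP, e⟩) fun e => ⟨hP, e⟩
  · refine le_trans ?_ (two_pow_le_qq y)
    exact_mod_cast (card_filter_le _ _).trans
      ((card_le_dg fun _ => isPr_of_mem_pf).trans ((dg_pf_le h0).trans hD))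

theorem R_gap (p : ℕ → Prop) [DecidablePred p] (hp : ∀ i j, p i → p (i + j) → p j) (L : ℕ)
    (h : ((Icc 1 L).filter p).Nonempty) : ∃ i ∈ range (L + 1),
      (∃ j ∈ Ico 1 (2 ^ (i + 1)), p j) ∧ ((Icc 1 L).filter p).card * 2 ^ i ≤ L := by
  obtain ⟨o, ho, hm⟩ := exists_min_image _ id h
  obtain ⟨o1, o2⟩ := mem_filter.1 ho
  obtain ⟨o3, o4⟩ := mem_Icc.1 o1
  have key : ∀ a ∈ (Icc 1 L).filter p, ∀ b ∈ (Icc 1 L).filter p, a < b → a / o < b / o :=
    fun a ha b hb ab => by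
      obtain ⟨a1, a2⟩ := mem_filter.1 ha
      obtain ⟨b1, b2⟩ := mem_filter.1 hb
      rw [mem_Icc] at a1 b1
      have : o ≤ b - a := hm _ (mem_filter.2 ⟨mem_Icc.2 (by omega),
        hp a _ a2 (by rwa [Nat.add_sub_cancel' ab.le])⟩)
      exact Nat.lt_of_succ_le ((Nat.add_div_right a o3).ge.trans (Nat.div_le_div_right (by omega)))
  have c : ((Icc 1 L).filter p).card ≤ (Icc 1 (L / o)).card :=
    card_le_card_of_injOn (· / o) (fun a ha => mem_coe.2 (mem_Icc.2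
      ⟨(Nat.one_le_div_iff o3).2 (hm a ha),
        Nat.div_le_div_right (mem_Icc.1 (mem_filter.1 ha).1).2⟩))
      fun a ha b hb e => le_antisymm (not_lt.1 fun l => (key b hb a ha l).ne' e)
        (not_lt.1 fun l => (key a ha b hb l).ne e)
  rw [Nat.card_Icc, Nat.add_sub_cancel] at c
  refine ⟨Nat.log 2 o, mem_range.2 (by have := Nat.log_le_self 2 o; omega),
    ⟨o, mem_Ico.2 ⟨o3, Nat.lt_pow_succ_log_self one_lt_two o⟩, o2⟩, ?_⟩
  exact (Nat.mul_le_mul c (Nat.pow_log_le_self 2 (by omega))).trans (Nat.div_mul_le_self _ _)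

theorem bn_deg (g : k[X]) (j : ℕ) : (bn g j).natDegree = j * g.natDegree :=
  natDegree_sub_C.trans (natDegree_pow g j)

theorem bn_ne {g : k[X]} (hg : 1 ≤ g.natDegree) {j : ℕ} (h : 1 ≤ j) : bn g j ≠ 0 := fun e => by
  have := bn_deg g j
  rw [e, natDegree_zero] at this
  exact (Nat.mul_pos h hg).ne this

theorem R_rom (c d : ℕ) (d1 : 1 ≤ d) : ∃ C0 : ℝ, 1 ≤ C0 ∧
    ∀ (k : Type) [Field k] [Finite k] (g : k[X]) (L : ℕ), g.natDegree = d →
    ∑ j ∈ range (L + 1), Wc c (pf (bn g j)) ≤ C0 * (L + 1) := by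
  have s1 := (summable_nat_add_iff 1).2
    (summable_pow_mul_geometric_of_norm_lt_one c (r := (1 / 2 : ℝ)) (by norm_num))
  obtain ⟨B, B0, hB⟩ : ∃ B : ℝ, 0 ≤ B ∧ ∀ N, ∑ i ∈ range N,
      ((i + 1 : ℕ) : ℝ) ^ c * (1 / 2) ^ (i + 1) ≤ B :=
    ⟨_, tsum_nonneg fun _ => by positivity, fun N => s1.sum_le_tsum _ fun _ _ => by positivity⟩
  have e0 : 0 ≤ Real.exp c * (2 * (d + 2 : ℝ) ^ c) * Real.exp c := by positivity
  refine ⟨1 + Real.exp c * (2 * (d + 2 : ℝ) ^ c) * Real.exp c * B, by nlinarith,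
    fun k _ _ g L hg => ?_⟩
  have g0 : ∀ S : Finset k[X], 0 ≤ ∏ P ∈ S, pc c P := fun S => prod_nonneg fun P _ => pc_nn c P
  have n0 : ∀ i, ∏ j ∈ Ico 1 (2 ^ (i + 1)), bn g j ≠ 0 := fun i =>
    prod_ne_zero_iff.2 fun j hj => bn_ne (hg ▸ d1) (mem_Ico.1 hj).1
  have a1 : ∀ j ∈ Icc 1 L, Wc c (pf (bn g j)) = ∑ S ∈ (Pr k (L * d)).powerset,
      if pr S ∣ bn g j then ∏ P ∈ S, pc c P else 0 := fun j hj => by
    obtain ⟨j1, j2⟩ := mem_Icc.1 hj
    rw [Wc, prod_one_add, ← sum_filter]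
    refine sum_congr ?_ fun _ _ => rfl
    ext S
    rw [mem_filter, mem_powerset, mem_powerset]
    exact ⟨fun h => ⟨h.trans ((filter_subset _ _).trans
      (Pr_mono ((bn_deg g j).trans_le (hg ▸ Nat.mul_le_mul_right _ j2)))),
      (subset_pf_iff (bn_ne (hg ▸ d1) j1) fun P hP => isPr_of_mem_pf (h hP)).1 h⟩,
      fun h => (subset_pf_iff (bn_ne (hg ▸ d1) j1) fun P hP => isPr_Pr P (h.1 hP)).2 h.2⟩
  have a2 : ∀ S ∈ (Pr k (L * d)).powerset,
      ∑ j ∈ Icc 1 L, (if pr S ∣ bn g j then ∏ P ∈ S, pc c P else 0) ≤ ∑ i ∈ range (L + 1),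
        L / 2 ^ i * if S ⊆ pf (∏ j ∈ Ico 1 (2 ^ (i + 1)), bn g j) then ∏ P ∈ S, pc c P else 0 :=
    fun S hS => by
      have nn : ∀ i ∈ range (L + 1), 0 ≤ (L : ℝ) / 2 ^ i *
          if S ⊆ pf (∏ j ∈ Ico 1 (2 ^ (i + 1)), bn g j) then ∏ P ∈ S, pc c P else 0 :=
        fun i _ => mul_nonneg (by positivity) (by split_ifs; exacts [g0 S, le_rfl])
      rw [← sum_filter, sum_const, nsmul_eq_mul]
      rcases ((Icc 1 L).filter fun j => pr S ∣ bn g j).eq_empty_or_nonempty with h | h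
      · rw [h, card_empty, Nat.cast_zero, zero_mul]
        exact sum_nonneg nn
      obtain ⟨i, hi, ⟨j, hj, hd⟩, hc⟩ := R_gap _ (fun i j ⟨a, ha⟩ ⟨b, hb⟩ => ⟨b - g ^ j * a, by
        simp only [bn, C_1, pow_add] at *
        linear_combination hb - g ^ j * ha⟩) L h
      refine le_trans ?_ (single_le_sum nn hi)
      rw [if_pos ((subset_pf_iff (n0 i) fun P hP => isPr_Pr P (mem_powerset.1 hS hP)).2
        (hd.trans (dvd_prod_of_mem _ hj)))]
      refine mul_le_mul_of_nonneg_right ?_ (g0 S)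
      rw [le_div_iff₀ (by positivity)]
      exact_mod_cast hc
  have a3 : ∑ j ∈ Icc 1 L, Wc c (pf (bn g j)) ≤
      L * (Real.exp c * (2 * (d + 2 : ℝ) ^ c) * Real.exp c * B) := by
    rw [sum_congr rfl a1, sum_comm]
    refine (sum_le_sum a2).trans ?_
    rw [sum_comm]
    refine le_trans ?_ (mul_le_mul_of_nonneg_left
      (mul_le_mul_of_nonneg_left (hB (L + 1)) e0) (by positivity))
    rw [mul_sum, mul_sum]
    refine sum_le_sum fun i _ => ?_
    have b := Wc_pf c ((d + 2) * (i + 1)) (Nat.mul_pos (by omega) (by omega)) (n0 i)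
      ((natDegree_prod_le _ _).trans ((sum_le_card_nsmul _ _ (2 ^ (i + 1) * 2 ^ d) fun j hj =>
        (bn_deg g j).trans_le (Nat.mul_le_mul (mem_Ico.1 hj).2.le
          (hg ▸ Nat.lt_two_pow_self.le))).trans (by
          rw [Nat.card_Ico, smul_eq_mul]
          refine (Nat.mul_le_mul_right _ (Nat.sub_le _ _)).trans ?_
          rw [← pow_add, ← pow_add]
          exact Nat.pow_le_pow_right (by omega) (by nlinarith))))
    rw [← mul_sum, ← sum_filter]
    refine (mul_le_mul_of_nonneg_left ((sum_le_sum_of_subset_of_nonneg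
      (fun S hS => mem_powerset.2 (mem_filter.1 hS).2) fun S _ _ => g0 S).trans
        ((prod_one_add _).symm.trans_le b)) (by positivity)).trans_eq ?_
    push_cast
    rw [mul_pow, one_div_pow]
    field_simp
    ring
  have a4 : Wc c (pf (bn g 0)) = 1 := prod_eq_one fun P hP => by
    have := mem_Pr.1 (mem_filter.1 hP).1
    have := this.1.pos
    have := bn_deg g 0
    omega
  rw [range_eq_Ico, sum_eq_sum_Ico_succ_bot (by omega), a4]
  have : 0 ≤ Real.exp c * (2 * (d + 2 : ℝ) ^ c) * Real.exp c * B := by positivity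
  have a5 : ∑ j ∈ Ico (0 + 1) (L + 1), Wc c (pf (bn g j)) ≤ _ := a3
  nlinarith

end Pool.Agent.P.MP_e94e4b_nt.RP.U
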