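import Pool.Agent.P.MP_0a67b8_nt.RR.A
import Pool.Agent.P.MP_0a67b8_nt.RR.B
import Pool.Agent.P.MP_e94e4b_nt.RP.TMER1

/-! The third moment of the number of representations. -/

set_option linter.unusedSectionVars false

namespace Pool.Agent.P.MP_e94e4b_nt.RP.U

open Polynomial Finset
open Pool.Agent.P.MP_8be758_nt Pool.Agent.P.MP_8be758_nt.C2 Pool.Agent.P.MP_8be758_nt.L2
open Pool.Agent.P.MP_e94e4b_nt.LG
open scoped Classical

variable {k : Type} [Field k] [Finite k]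

/-- the number of representations -/
noncomputable def rp (g : k[X]) (A : Finset ℕ) (f : k[X]) : ℕ :=
  (A.filter fun a => Irreducible (f + g ^ a)).card

theorem pc_half {P : k[X]} (h : IsPr P) : 0 ≤ pc 1 P ∧ pc 1 P ≤ 1 / 2 :=
  ⟨MER1x.pc_nonneg P, one_div_le_one_div_of_le (by norm_num) (two_le_qq.trans
    (le_self_pow₀ one_le_qq (Nat.one_le_iff_ne_zero.1 h.pos)))⟩

theorem pc_eq (c : ℝ) (P : k[X]) : pc c P = c * pc 1 P := by unfold pc; ring

theorem Wc_nine {S : Finset k[X]} (h : ∀ P ∈ S, IsPr P) : Wc 2 S ^ 9 ≤ Wc 1022 S := by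
  rw [Wc, ← prod_pow]
  refine prod_le_prod (fun P _ => pow_nonneg (by linarith [pc_nn 2 P]) _) fun P hP => ?_
  obtain ⟨a, b⟩ := pc_half (h P hP)
  have : ∀ m : ℕ, (1 + 2 * pc 1 P) ^ m ≤ 1 + (2 ^ m - 1) * (2 * pc 1 P) := fun m => by
    induction m with
    | zero => simp
    | succ m ih =>
      have c : (1 : ℝ) ≤ 2 ^ m := one_le_pow₀ one_le_two
      have d : 0 ≤ (2 ^ m - 1) * (pc 1 P * (1 - 2 * pc 1 P)) :=
        mul_nonneg (by linarith) (mul_nonneg a (by linarith))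
      rw [pow_succ, pow_succ]
      nlinarith [mul_le_mul_of_nonneg_right ih (show 0 ≤ 1 + 2 * pc 1 P by linarith)]
  rw [pc_eq, pc_eq (1022 : ℕ)]
  exact (this 9).trans_eq (by push_cast; ring)

theorem R_sep {P g : k[X]} (hg : 1 ≤ g.natDegree) (h : IsPr P) (h2 : ¬ P ∣ g) {i j : ℕ}
    (l : i < j) (d : P ∣ g ^ j - g ^ i) : P ∈ pf (bn g (Nat.dist i j)) := by
  rw [Nat.dist_eq_sub_of_le l.le]
  refine (mem_pf (bn_ne hg (by omega))).2 ⟨h, ?_⟩
  rw [show g ^ j - g ^ i = g ^ i * bn g (j - i) by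
    rw [bn, mul_sub, ← pow_add, C_1, mul_one, Nat.add_sub_cancel' l.le]] at d
  exact (h.prime.dvd_or_dvd d).resolve_left fun e => h2 (h.prime.dvd_of_dvd_pow e)

theorem R_n3 {g : k[X]} {n a b c : ℕ} (hg : 1 ≤ g.natDegree) (hn : 23 ≤ n)
    (ha : g ^ a ∈ low k n) (hb : g ^ b ∈ low k n) (hc : g ^ c ∈ low k n) (ab : a ≠ b)
    (ac : a ≠ c) (bc : b ≠ c) :
    (((Mo k n).filter fun f => Irreducible (f + g ^ a) ∧ Irreducible (f + g ^ b) ∧
      Irreducible (f + g ^ c)).card : ℝ) * ((n : ℝ) + 1) ^ 3 ≤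
      2 * (23 * (Real.exp 2 * 4 * (Real.exp 2 * (g.natDegree : ℝ) ^ 2 * Real.exp 2))) ^ 3 *
        qq k ^ n * (Wc 1022 (pf (bn g (a.dist b))) + Wc 1022 (pf (bn g (a.dist c))) +
          Wc 1022 (pf (bn g (b.dist c)))) := by
  have hq := qq_pos (k := k)
  have g0 : g ≠ 0 := by rintro rfl; simp at hg
  have w0 : Wc 2 (Pr k 2 ∪ pf g) ≤
      Real.exp 2 * 4 * (Real.exp 2 * (g.natDegree : ℝ) ^ 2 * Real.exp 2) :=
    (Wc_union 2 _ _).trans (mul_le_mul ((Wc_Pr 2 2 (by omega)).trans_eq (by norm_num))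
      (Wc_pf 2 _ hg g0 Nat.lt_two_pow_self.le) (Wc_nn _ _) (by positivity))
  have w1 := (Wc_nn _ _).trans w0
  generalize Real.exp 2 * 4 * (Real.exp 2 * (g.natDegree : ℝ) ^ 2 * Real.exp 2) = Γ at *
  obtain ⟨Z, hZ⟩ : ∃ Z, Z = n / 23 := ⟨_, rfl⟩
  obtain ⟨E, hE⟩ : ∃ E, E = Pr k 2 ∪ pf g ∪ (pf (bn g (a.dist b)) ∪ pf (bn g (a.dist c)) ∪
    pf (bn g (b.dist c))) := ⟨_, rfl⟩
  have mT : ∀ P ∈ Pr k Z \ E, IsPr P ∧ P.natDegree ≤ Z ∧ 3 ≤ P.natDegree ∧ ¬ P ∣ g :=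
    fun P hP => by
    obtain ⟨p1, p2⟩ := mem_sdiff.1 hP
    obtain ⟨p3, p4⟩ := mem_Pr.1 p1
    exact ⟨p3, p4, not_le.1 fun e => p2 (hE ▸ mem_union_left _ (mem_union_left _
      (mem_Pr.2 ⟨p3, e⟩))), fun e => p2 (hE ▸ mem_union_left _ (mem_union_right _
        ((mem_pf g0).2 ⟨p3, e⟩)))⟩
  have hp : ∀ P ∈ Pr k Z \ E, pc 3 P ≤ 1 / 2 := fun P hP => by
    have := (two_pow_le_qq (k := k) 3).trans (qq_pow_mono (mT P hP).2.2.1)
    rw [pc, div_le_iff₀ (by positivity)]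
    linarith
  have a1 := R_sieve (({a, b, c} : Finset ℕ).image fun i => g ^ i) (Pr k Z \ E) n Z
    sdiff_subset (by omega) (by omega) hp (by
      rw [card_image_of_injective _ fun i j e => Nat.eq_of_mul_eq_mul_right hg
        (by simpa only [natDegree_pow] using congrArg natDegree e)]
      exact card_eq_three.2 ⟨a, b, c, ab, ac, bc, rfl⟩) fun P hP x hx y hy d => by
      obtain ⟨i, hi, rfl⟩ := mem_image.1 hx
      obtain ⟨j, hj, rfl⟩ := mem_image.1 hy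
      by_contra ne
      have m : P ∈ pf (bn g (i.dist j)) := by
        rcases lt_trichotomy i j with l | l | l
        · exact R_sep hg (mT P hP).1 (mT P hP).2.2.2 l (dvd_sub_comm.1 d)
        · exact absurd (by rw [l]) ne
        · exact Nat.dist_comm i j ▸ R_sep hg (mT P hP).1 (mT P hP).2.2.2 l d
      refine (mem_sdiff.1 hP).2 (hE ▸ mem_union_right _ ?_)
      simp only [mem_insert, mem_singleton] at hi hj
      rcases hi with rfl | rfl | rfl <;> rcases hj with rfl | rfl | rfl <;>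
        first | exact absurd rfl ne | (simp [m]; done) | (rw [Nat.dist_comm] at m; simp [m])
  have a0 : (((Mo k n).filter fun f => Irreducible (f + g ^ a) ∧ Irreducible (f + g ^ b) ∧
      Irreducible (f + g ^ c)).card : ℝ) ≤ _ := le_trans (Nat.cast_le.2 (card_le_card
    fun f hf => by
      obtain ⟨f1, i1, i2, i3⟩ := mem_filter.1 hf
      rw [mem_filter]
      refine ⟨f1, fun P hP ⟨x, hx, d⟩ => ?_⟩
      obtain ⟨i, hi, rfl⟩ := mem_image.1 hx
      have : g ^ i ∈ low k n ∧ Irreducible (f + g ^ i) := by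
        simp only [mem_insert, mem_singleton] at hi
        rcases hi with rfl | rfl | rfl <;> exact ⟨‹_›, ‹_›⟩
      obtain ⟨m1, m2⟩ := mem_Mo.1 (add_mem_Mo f1 this.1)
      have := (mT P hP).1.eq_of_dvd ⟨m1, this.2⟩ d
      have := (mT P hP).2.1
      subst_vars
      omega)) a1
  have v0 : 0 ≤ VV (pc 1) (Pr k Z \ E) :=
    prod_nonneg fun P hP => by linarith [(pc_half (mT P hP).1).2]
  have a2 : VV (pc 3) (Pr k Z \ E) ≤ VV (pc 1) (Pr k Z \ E) ^ 3 := by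
    rw [VV, VV, ← prod_pow]
    refine prod_le_prod (fun P hP => by linarith [hp P hP]) fun P hP => ?_
    obtain ⟨u, v⟩ := pc_half (mT P hP).1
    rw [pc_eq 3]
    nlinarith [mul_nonneg (sq_nonneg (pc 1 P)) (show 0 ≤ 3 - pc 1 P by linarith)]
  have a3 : VV (pc 1) (Pr k Z \ E) ≤ VV (pc 1) (Pr k Z) * Wc 2 (Pr k Z ∩ E) := by
    rw [VV, VV, ← prod_sdiff (inter_subset_left (s₁ := Pr k Z) (s₂ := E)), sdiff_inter_self_left,
      mul_assoc, Wc, ← prod_mul_distrib]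
    refine le_mul_of_one_le_right v0 (one_le_prod fun P hP => ?_)
    obtain ⟨u, v⟩ := pc_half (isPr_Pr P (mem_inter.1 hP).1)
    rw [pc_eq (2 : ℕ)]
    push_cast
    nlinarith [mul_nonneg u (sub_nonneg.2 v)]
  have a4 : Wc 2 (Pr k Z ∩ E) ≤ Γ * (Wc 2 (pf (bn g (a.dist b))) *
      Wc 2 (pf (bn g (a.dist c))) * Wc 2 (pf (bn g (b.dist c)))) := by
    refine (Wc_mono 2 inter_subset_right).trans (hE ▸ (Wc_union 2 _ _).trans (mul_le_mul
      w0 ((Wc_union 2 _ _).trans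
        (mul_le_mul_of_nonneg_right (Wc_union 2 _ _) (Wc_nn _ _))) (Wc_nn _ _) w1))
  have b1 := Wc_nine (S := pf (bn g (a.dist b))) fun _ => isPr_of_mem_pf
  have b2 := Wc_nine (S := pf (bn g (a.dist c))) fun _ => isPr_of_mem_pf
  have b3 := Wc_nine (S := pf (bn g (b.dist c))) fun _ => isPr_of_mem_pf
  have c1 := Wc_nn 2 (pf (bn g (a.dist b)))
  have c2 := Wc_nn 2 (pf (bn g (a.dist c)))
  have c3 := Wc_nn 2 (pf (bn g (b.dist c)))
  generalize Wc 2 (pf (bn g (a.dist b))) = x at *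
  generalize Wc 2 (pf (bn g (a.dist c))) = y at *
  generalize Wc 2 (pf (bn g (b.dist c))) = z at *
  have am : ∀ x y z : ℝ, 0 ≤ x → 0 ≤ y → 0 ≤ z → x * y * z ≤ x ^ 3 + y ^ 3 + z ^ 3 :=
    fun x y z u v w => by
      nlinarith [mul_nonneg (add_nonneg (add_nonneg u v) w) (add_nonneg (add_nonneg
        (sq_nonneg (x - y)) (sq_nonneg (y - z))) (sq_nonneg (z - x))),
        mul_nonneg (mul_nonneg u v) w]
  have b4 := am (x ^ 3) (y ^ 3) (z ^ 3) (by positivity) (by positivity) (by positivity)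
  obtain ⟨m1, m2⟩ := p_MER1 k Z
  have m3 : (n : ℝ) + 1 ≤ 23 * (Z + 1) := by exact_mod_cast (by omega : n + 1 ≤ 23 * (Z + 1))
  have a5 : VV (pc 1) (Pr k Z \ E) * (n + 1) ≤ 23 * Γ * (x * y * z) :=
    calc _ ≤ VV (pc 1) (Pr k Z) * (Γ * (x * y * z)) * (23 * (Z + 1)) :=
          mul_le_mul (a3.trans (mul_le_mul_of_nonneg_left a4 m1.le)) m3 (by positivity)
            (by positivity)
      _ = VV (pc 1) (Pr k Z) * (Z + 1) * (23 * Γ * (x * y * z)) := by ring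
      _ ≤ _ := mul_le_of_le_one_left (by positivity) m2
  calc _ ≤ 2 * qq k ^ n * VV (pc 1) (Pr k Z \ E) ^ 3 * ((n : ℝ) + 1) ^ 3 :=
        mul_le_mul_of_nonneg_right (a0.trans (mul_le_mul_of_nonneg_left a2 (by positivity)))
          (by positivity)
    _ = 2 * qq k ^ n * (VV (pc 1) (Pr k Z \ E) * (n + 1)) ^ 3 := by ring
    _ ≤ 2 * qq k ^ n * (23 * Γ * (x * y * z)) ^ 3 := by gcongr
    _ = 2 * (23 * Γ) ^ 3 * qq k ^ n * (x ^ 3 * y ^ 3 * z ^ 3) := by ring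
    _ ≤ _ := mul_le_mul_of_nonneg_left (b4.trans (by linarith)) (by positivity)

theorem R_row (φ : ℕ → ℝ) (h0 : ∀ j, 0 ≤ φ j) {n a : ℕ} (ha : a < n) {A : Finset ℕ}
    (hA : A ⊆ range n) : ∑ b ∈ A, φ (a.dist b) ≤ 2 * ∑ j ∈ range (n + 1), φ j := by
  rw [← sum_fiberwise_of_maps_to (t := range (n + 1)) (g := a.dist) fun b hb => mem_range.2 (by
    have := mem_range.1 (hA hb); unfold Nat.dist; omega), mul_sum]
  refine sum_le_sum fun j _ => ?_
  rw [sum_congr rfl (g := fun _ => φ j) fun b hb => by rw [(mem_filter.1 hb).2], sum_const,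
    nsmul_eq_mul]
  refine mul_le_mul_of_nonneg_right ?_ (h0 j)
  exact_mod_cast (card_le_card (t := {a + j, a - j}) fun b hb => by
    have := (mem_filter.1 hb).2
    simp only [mem_insert, mem_singleton]
    unfold Nat.dist at this
    omega).trans card_le_two

theorem R_m3 (d : ℕ) (d1 : 1 ≤ d) : ∃ C0 : ℝ, 0 < C0 ∧ ∀ (k : Type) [Field k] [Finite k]
    (g : k[X]) (n : ℕ) (A : Finset ℕ), g.natDegree = d → 23 ≤ n → (∀ a ∈ A, a * d < n) →
    ∑ f ∈ Mo k n, (rp g A f : ℝ) ^ 3 ≤ C0 * qq k ^ n := by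
  obtain ⟨C0, c1, hC⟩ := R_rom 1022 d d1
  obtain ⟨C3, c3, h3⟩ : ∃ C3 : ℝ, 0 ≤ C3 ∧
      C3 = 2 * (23 * (Real.exp 2 * 4 * (Real.exp 2 * (d : ℝ) ^ 2 * Real.exp 2))) ^ 3 :=
    ⟨_, by positivity, rfl⟩
  refine ⟨8 + 5 * (C3 * (6 * C0)), by positivity, fun k _ _ g n A hg hn hB => ?_⟩
  have hA : A ⊆ range n := fun a ha =>
    mem_range.2 ((Nat.le_mul_of_pos_right a d1).trans_lt (hB a ha))
  have lo : ∀ a ∈ A, g ^ a ∈ low k n := fun a ha =>
    mem_low_of_natDegree_lt ((natDegree_pow g a).trans_lt (hg ▸ hB a ha))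
  have hq := qq_pos (k := k)
  obtain ⟨φ, hφ⟩ : ∃ φ : ℕ → ℝ, φ = fun j => Wc 1022 (pf (bn g j)) := ⟨_, rfl⟩
  have φ0 : ∀ j, 0 ≤ φ j := fun j => by rw [hφ]; exact Wc_nn _ _
  have row : ∀ a ∈ A, ∑ b ∈ A, φ (a.dist b) ≤ 2 * (C0 * (n + 1)) := fun a ha =>
    (R_row φ φ0 (mem_range.1 (hA ha)) hA).trans (by rw [hφ]; linarith [hC k g n hg])
  have cA : (A.card : ℝ) ≤ n + 1 := by
    exact_mod_cast (card_le_card hA).trans (by simp)
  have a1 : ∀ f : k[X], (rp g A f : ℝ) ^ 3 ≤ 8 + 5 * ∑ a ∈ A, ∑ b ∈ A, ∑ c ∈ A,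
      if (a ≠ b ∧ a ≠ c ∧ b ≠ c) ∧ Irreducible (f + g ^ a) ∧ Irreducible (f + g ^ b) ∧
        Irreducible (f + g ^ c) then (1 : ℝ) else 0 := fun f => by
    have e : ∑ a ∈ A, ∑ b ∈ A, ∑ c ∈ A, (if (a ≠ b ∧ a ≠ c ∧ b ≠ c) ∧ Irreducible (f + g ^ a) ∧
        Irreducible (f + g ^ b) ∧ Irreducible (f + g ^ c) then 1 else 0) =
        rp g A f * ((rp g A f - 1) * (rp g A f - 1 - 1)) := by
      rw [rp, ← smul_eq_mul, ← sum_const, sum_filter]
      refine sum_congr rfl fun a ha => ?_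
      split_ifs with i1
      swap
      · simp [i1]
      have m1 : a ∈ A.filter fun a => Irreducible (f + g ^ a) := mem_filter.2 ⟨ha, i1⟩
      rw [← card_erase_of_mem m1, ← smul_eq_mul, ← sum_const, ← sum_filter_of_ne
        (p := fun b => b ≠ a ∧ Irreducible (f + g ^ b)) fun b _ hb => by
          by_contra c; exact hb (sum_eq_zero fun c _ => if_neg (by tauto))]
      refine sum_congr (by ext b; simp only [mem_filter, mem_erase]; tauto) fun b hb => ?_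
      rw [← card_erase_of_mem hb, sum_boole, Nat.cast_id]
      refine congrArg _ ?_
      ext c
      simp only [mem_filter, mem_erase] at hb ⊢
      tauto
    have : rp g A f ^ 3 ≤ 8 + 5 * (rp g A f * ((rp g A f - 1) * (rp g A f - 1 - 1))) := by
      generalize rp g A f = r
      rcases le_or_gt r 2 with l | l
      · exact (Nat.pow_le_pow_left l 3).trans (Nat.le_add_right _ _)
      · obtain ⟨m, rfl⟩ : ∃ m, r = m + 3 := ⟨r - 3, by omega⟩
        rw [show m + 3 - 1 = m + 2 from rfl, show m + 2 - 1 = m + 1 from rfl]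
        nlinarith [Nat.zero_le (m ^ 3), Nat.zero_le (m ^ 2)]
    rw [← e] at this
    exact_mod_cast this
  refine (sum_le_sum fun f _ => a1 f).trans ?_
  rw [sum_add_distrib, sum_const, nsmul_eq_mul, card_Mo, ← mul_sum, add_mul, mul_comm _ 8,
    mul_assoc 5]
  refine add_le_add_right (mul_le_mul_of_nonneg_left (le_of_mul_le_mul_right ?_
    (show 0 < ((n : ℝ) + 1) ^ 3 by positivity)) (by norm_num)) _
  have a2 : ∑ a ∈ A, ∑ b ∈ A, ∑ c ∈ A, (φ (a.dist b) + φ (a.dist c) + φ (b.dist c)) ≤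
      6 * C0 * ((n : ℝ) + 1) ^ 3 := by
    refine (sum_le_card_nsmul _ _ (6 * C0 * ((n : ℝ) + 1) ^ 2) fun a ha => ?_).trans ?_
    · simp only [sum_add_distrib, sum_const, nsmul_eq_mul, ← mul_sum]
      have b1 := mul_le_mul cA (row a ha) (sum_nonneg fun _ _ => φ0 _) (by positivity)
      have b2 := (sum_le_card_nsmul _ _ _ row).trans ((nsmul_eq_mul _ _).trans_le
        (mul_le_mul_of_nonneg_right cA (by positivity)))
      linarith
    · rw [nsmul_eq_mul]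
      exact (mul_le_mul_of_nonneg_right cA (by positivity)).trans_eq (by ring)
  refine le_trans ?_ ((mul_le_mul_of_nonneg_left a2
    (show 0 ≤ C3 * qq k ^ n by positivity)).trans_eq (by ring))
  rw [sum_comm, sum_mul, mul_sum]
  refine sum_le_sum fun a ha => ?_
  rw [sum_comm, sum_mul, mul_sum]
  refine sum_le_sum fun b hb => ?_
  rw [sum_comm, sum_mul, mul_sum]
  refine sum_le_sum fun c hc => ?_
  by_cases e : a ≠ b ∧ a ≠ c ∧ b ≠ c
  · simp only [and_iff_right e]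
    rw [sum_boole, h3, hφ, ← hg]
    exact R_n3 (hg ▸ d1) hn (lo a ha) (lo b hb) (lo c hc) e.1 e.2.1 e.2.2
  · rw [sum_eq_zero fun f _ => if_neg fun e' => e e'.1, zero_mul]
    exact mul_nonneg (by positivity) (add_nonneg (add_nonneg (φ0 _) (φ0 _)) (φ0 _))

end Pool.Agent.P.MP_e94e4b_nt.RP.U
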