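import Pool.Agent.P.MP_0a67b8_nt.RR.C
import Pool.Agent.P.MP_0a67b8_nt.RU.UF

/-! The first moment and the conclusion. -/

set_option linter.unusedSectionVars false

namespace Pool.Agent.P.MP_e94e4b_nt.RP.U

open Polynomial Finset
open Pool.Agent.P.MP_8be758_nt Pool.Agent.P.MP_8be758_nt.C2 Pool.Agent.P.MP_8be758_nt.L2
open Pool.Agent.P.MP_e94e4b_nt.LG
open scoped Classical

variable {k : Type} [Field k] [Finite k]

theorem R_adm [CharP k 2] {g h : k[X]} (hg : 1 ≤ g.natDegree) (hh : Adm h) {a b : ℕ}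
    (ha : h.natDegree < a) (hb : h.natDegree < b) : Adm (h + g ^ a + g ^ b) := by
  have h2 : (2 : k[X]) = 0 := CharTwo.two_eq_zero
  refine ⟨fun e => ?_, fun P p1 p2 => ?_⟩
  · have : g ^ (h.natDegree + 1) ∣ h := by
      have := (dvd_add (pow_dvd_pow g ha) (pow_dvd_pow g hb)).neg_right
      rwa [show -(g ^ a + g ^ b) = h by linear_combination -e] at this
    have := natDegree_le_of_dvd this hh.1
    rw [natDegree_pow] at this
    exact absurd ((Nat.le_mul_of_pos_right _ hg).trans this) (by omega)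
  · rw [add_assoc]
    refine dvd_add (hh.2 P p1 p2) ?_
    have q2 := two_le_qq (k := k)
    have d1 : P.natDegree = 1 := le_antisymm (not_lt.1 fun l => by
      have := (two_pow_le_qq (k := k) 2).trans (qq_pow_mono l)
      linarith) p1.pos
    rw [d1, pow_one] at p2
    have := Fintype.ofFinite k
    have c : Fintype.card k = 2 := by
      have := le_antisymm p2 q2
      rw [qq, Nat.card_eq_fintype_card] at this
      exact_mod_cast this
    rw [p1.1.eq_X_add_C d1, ← sub_neg_eq_add, ← C_neg, dvd_iff_isRoot, IsRoot.def, eval_add,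
      eval_pow, eval_pow]
    have e := FiniteField.pow_card (g.eval (-P.coeff 0))
    rw [c] at e
    generalize g.eval (-P.coeff 0) = z at e
    have : z * (z - 1) = 0 := by linear_combination e
    rcases mul_eq_zero.1 this with e | e
    · simp [e, show a ≠ 0 by omega, show b ≠ 0 by omega]
    · simp [sub_eq_zero.1 e, CharTwo.add_self_eq_zero]

theorem R_fin (hUF : S_UF) (d : ℕ) (d1 : 1 ≤ d) : ∃ c : ℝ, 0 < c ∧
    ∀ (k : Type) [Field k] [Finite k] [CharP k 2] (g h : k[X]), g.natDegree = d → Adm h → ∃ n0 : ℕ,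
      ∀ n, n0 ≤ n → c * qq k ^ n ≤
      (((Mo k n).filter fun f => (∃ P m, IsPr P ∧ 1 ≤ m ∧ f = P + g ^ m) ∧
        ∃ P m, IsPr P ∧ 1 ≤ m ∧ f + h = P + g ^ m).card : ℝ) := by
  obtain ⟨K1, hK1, hU⟩ := hUF
  obtain ⟨K, hK2⟩ : ∃ K, K = K1 * d := ⟨_, rfl⟩
  have hK : 1 ≤ K := hK2 ▸ Nat.mul_pos hK1 d1
  obtain ⟨C0, c0, hC⟩ := R_m3 d d1
  have K0 : (0 : ℝ) < K := by exact_mod_cast hK
  obtain ⟨c1, c2, h1⟩ : ∃ c1 : ℝ, 0 < c1 ∧ c1 * (512 * K ^ 2) = 1 :=
    ⟨1 / (512 * K ^ 2), by positivity, by field_simp⟩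
  obtain ⟨l, l0, hl⟩ : ∃ l : ℝ, 0 < l ∧ l * c1 = 2 * C0 := ⟨2 * C0 / c1, by positivity, by field_simp⟩
  refine ⟨c1 / (2 * l ^ 2), by positivity, fun k _ _ _ g h hg hh => ?_⟩
  obtain ⟨n0, hU⟩ := hU k
  refine ⟨n0 + 23 + (2 * h.natDegree + 4) * K, fun n hn => ?_⟩
  have hq := qq_pos (k := k)
  have h2 : (2 : k[X]) = 0 := CharTwo.two_eq_zero
  have L1 : 2 * h.natDegree + 4 ≤ n / K := (Nat.le_div_iff_mul_le hK).2 (by omega)
  have L2 : n / K1 ≤ n := Nat.div_le_self _ _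
  have L4 : n / K * d ≤ n / K1 := by
    rw [hK2, ← Nat.div_div_eq_div_mul]; exact Nat.div_mul_le_self _ _
  have L5 : n / K ≤ n / K * d := Nat.le_mul_of_pos_right _ d1
  have L3 : n < K * (n / K + 1) := Nat.lt_mul_div_succ n hK
  obtain ⟨A, hA⟩ : ∃ A, A = Ioo h.natDegree (n / K) := ⟨_, rfl⟩
  have mA : ∀ a ∈ A, h.natDegree < a ∧ a * d < n / K1 := fun a ha =>
    (mem_Ioo.1 (hA ▸ ha)).imp_right fun e => (Nat.mul_lt_mul_of_pos_right e d1).trans_le L4
  have dg : ∀ a, (g ^ a).natDegree = a * d := fun a => hg ▸ natDegree_pow g a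
  have cA : (n : ℝ) ≤ 2 * K * A.card := by
    have : K * (n / K + 1) ≤ K * (2 * A.card) :=
      Nat.mul_le_mul_left _ (by rw [hA, Nat.card_Ioo]; omega)
    exact_mod_cast (L3.le.trans this).trans_eq (by ring)
  have lo : ∀ a ∈ A, g ^ a ∈ low k n := fun a ha =>
    mem_low_of_natDegree_lt ((dg a).trans_lt (by have := mA a ha; omega))
  have lh : h ∈ low k n := mem_low_of_natDegree_lt (by omega)
  have m3 := hC k g n A hg (by omega) fun a ha => by have := mA a ha; omega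
  have m4 : ∑ f ∈ Mo k n, (rp g A (f + h) : ℝ) ^ 3 ≤ C0 * qq k ^ n := by
    rw [← sum_image (f := fun f => (rp g A f : ℝ) ^ 3) (g := (· + h))
      (add_left_injective h).injOn]
    refine le_trans (sum_le_sum_of_subset_of_nonneg (fun u hu => ?_) fun _ _ _ => by positivity) m3
    obtain ⟨f, hf, rfl⟩ := mem_image.1 hu
    exact add_mem_Mo hf lh
  have m1 : (A.card : ℝ) * (A.card * qq k ^ n) ≤
      128 * (n : ℝ) ^ 2 * ∑ f ∈ Mo k n, (rp g A f : ℝ) * rp g A (f + h) := by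
    simp only [rp, ← sum_boole, sum_mul_sum]
    rw [sum_comm, mul_sum, ← nsmul_eq_mul]
    refine card_nsmul_le_sum _ _ _ fun a ha => ?_
    rw [sum_comm, mul_sum, ← nsmul_eq_mul]
    refine card_nsmul_le_sum _ _ _ fun b hb => ?_
    obtain ⟨a1, a2⟩ := mA a ha
    obtain ⟨b1, b2⟩ := mA b hb
    refine (hU n (by omega) _ (R_adm (hg ▸ d1) hh a1 b1) ((natDegree_add_le _ _).trans_lt (max_lt
      ((natDegree_add_le _ _).trans_lt (max_lt (by omega) ((dg a).trans_lt a2)))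
      ((dg b).trans_lt b2)))).trans (mul_le_mul_of_nonneg_left ?_ (by positivity))
    simp only [ite_zero_mul_ite_zero, mul_one]
    rw [sum_boole, tw, Nat.cast_le]
    refine card_le_card_of_injOn (· + g ^ a) (fun P hP => ?_) (add_left_injective _).injOn
    obtain ⟨p1, p2, p3⟩ := mem_filter.1 (mem_coe.1 hP)
    refine mem_coe.2 (mem_filter.2 ⟨add_mem_Mo p1 (lo a ha), ?_, ?_⟩)
    · rwa [show P + g ^ a + g ^ a = P by linear_combination g ^ a * h2]
    · rwa [show P + g ^ a + h + g ^ b = P + (h + g ^ a + g ^ b) by ring]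
  have m2 : c1 * qq k ^ n ≤ ∑ f ∈ Mo k n, (rp g A f : ℝ) * rp g A (f + h) := by
    have n0 : (0 : ℝ) < n := by exact_mod_cast (by omega : 0 < n)
    refine le_of_mul_le_mul_left (le_trans ?_ m1) (by positivity)
    have := mul_le_mul_of_nonneg_right (pow_le_pow_left₀ n0.le cA 2)
      (show 0 ≤ 128 * c1 * qq k ^ n by positivity)
    calc _ = (n : ℝ) ^ 2 * (128 * c1 * qq k ^ n) := by ring
      _ ≤ _ := this
      _ = c1 * (512 * K ^ 2) * (A.card * (A.card * qq k ^ n)) := by ring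
      _ = _ := by rw [h1, one_mul]
  have sq : ∀ x : ℝ, 0 ≤ x → l * x ^ 2 ≤ x ^ 3 + l ^ 3 := fun x x0 => by
    rcases le_total x l with e | e
    · nlinarith [mul_le_mul_of_nonneg_left (pow_le_pow_left₀ x0 e 2) l0.le, pow_nonneg x0 3]
    · nlinarith [mul_le_mul_of_nonneg_right e (sq_nonneg x), pow_pos l0 3]
  have ex : ∀ f ∈ Mo k n, rp g A f ≠ 0 → ∃ P m, IsPr P ∧ 1 ≤ m ∧ f = P + g ^ m := fun f hf e => by
    obtain ⟨a, ha⟩ := card_ne_zero.1 e
    obtain ⟨a1, a2⟩ := mem_filter.1 ha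
    exact ⟨f + g ^ a, a, ⟨(mem_Mo.1 (add_mem_Mo hf (lo a a1))).1, a2⟩,
      by have := mA a a1; omega, by linear_combination -g ^ a * h2⟩
  have m5 : ∀ f ∈ Mo k n, 2 * l * ((rp g A f : ℝ) * rp g A (f + h)) ≤
      (rp g A f : ℝ) ^ 3 + (rp g A (f + h) : ℝ) ^ 3 + 2 * l ^ 3 *
        if (∃ P m, IsPr P ∧ 1 ≤ m ∧ f = P + g ^ m) ∧
          ∃ P m, IsPr P ∧ 1 ≤ m ∧ f + h = P + g ^ m then 1 else 0 := fun f hf => by
    split_ifs with c
    · nlinarith [sq (rp g A f) (Nat.cast_nonneg _), sq (rp g A (f + h)) (Nat.cast_nonneg _),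
        mul_nonneg l0.le (sq_nonneg ((rp g A f : ℝ) - rp g A (f + h)))]
    · have : (rp g A f : ℝ) * rp g A (f + h) = 0 := by
        by_contra e
        exact c ⟨ex f hf (Nat.cast_ne_zero.1 (left_ne_zero_of_mul e)),
          ex _ (add_mem_Mo hf lh) (Nat.cast_ne_zero.1 (right_ne_zero_of_mul e))⟩
      rw [this, mul_zero, mul_zero]
      positivity
  have m6 := sum_le_sum m5
  rw [← mul_sum, sum_add_distrib, sum_add_distrib, ← mul_sum, sum_boole] at m6
  have m7 := mul_le_mul_of_nonneg_left m2 (show 0 ≤ 2 * l by positivity)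
  rw [div_mul_eq_mul_div, div_le_iff₀ (by positivity)]
  refine le_of_mul_le_mul_left ?_ l0
  have m8 : l * c1 * qq k ^ n = 2 * C0 * qq k ^ n := by rw [hl]
  linarith

theorem R_adm0 [CharP k 2] {h : k[X]} (h0 : h ≠ 0) (hh : Nat.card k = 2 → X * (X + 1) ∣ h) :
    Adm h := by
  refine ⟨h0, fun P hP l => ?_⟩
  have h1 := hP.pos
  have h2 := two_le_qq (k := k)
  have h3 : P.natDegree = 1 := by
    by_contra h4
    have := (qq_pow_mono (k := k) (show 2 ≤ P.natDegree by omega)).trans l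
    nlinarith
  rw [h3, pow_one] at l
  have h5 : Nat.card k = 2 := by
    have : (Nat.card k : ℝ) = 2 := le_antisymm l h2
    exact_mod_cast this
  refine Dvd.dvd.trans ?_ (hh h5)
  have e := hP.1.eq_X_add_C h3
  have c := pow_card' (P.coeff 0)
  rw [h5] at c
  generalize P.coeff 0 = a at e c
  rw [e, show X + C a = X - C (-a) by simp, dvd_iff_isRoot, IsRoot.def]
  simp only [eval_mul, eval_add, eval_X, eval_one]
  linear_combination c

theorem R_last (hUF : S_UF) (d : ℕ) (hd : 1 ≤ d) : ∃ c : ℝ, 0 < c ∧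
    ∀ (k : Type) [Field k] [Finite k] [CharP k 2] (g h : k[X]), g.natDegree = d → h ≠ 0 →
      (Nat.card k = 2 → X * (X + 1) ∣ h) → ∃ n0 : ℕ, ∀ n : ℕ, n0 ≤ n →
        c * (Nat.card k : ℝ) ^ n ≤ Set.ncard {f : k[X] | f.Monic ∧ f.natDegree = n ∧
          (∃ (P : k[X]) (m : ℕ), P.Monic ∧ Irreducible P ∧ 1 ≤ m ∧ f = P + g ^ m) ∧
          ∃ (P : k[X]) (m : ℕ), P.Monic ∧ Irreducible P ∧ 1 ≤ m ∧ f + h = P + g ^ m} := by
  obtain ⟨c, c0, H⟩ := R_fin hUF d hd
  refine ⟨c, c0, fun k _ _ _ g h hg h0 hh => ?_⟩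
  obtain ⟨n0, H⟩ := H k g h hg (R_adm0 h0 hh)
  refine ⟨n0, fun n hn => (H n hn).trans_eq ?_⟩
  rw [← Set.ncard_coe_finset]
  congr 2
  ext f
  simp only [coe_filter, mem_Mo, IsPr, and_assoc, Set.mem_setOf_eq]

end Pool.Agent.P.MP_e94e4b_nt.RP.U
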